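import Pool.Agent.H54.RH.Targets

/-!
# MP_def5ca_co, row CN: connectivity
-/

set_option autoImplicit false

open Pool.Agent.H54.RH
open Pool.Agent.H54.PM (body IsGon IsEdge Un IsPM ver edg chi Ori)

namespace Pool.Agent.H5.RHX

variable {n : ℕ}

/-- a common point of a hexagon and a neighbour -/
noncomputable def xp (h : W n) (k l : Fin n) : Fin n → ℝ := fun t =>
  if t = k ∨ t = l then ((h l).val : ℝ) else
    if h t = 1 then (3 - ((h l).val : ℝ)) / 2 else ((h t).val : ℝ)

theorem val_le (c : Fin 3) : (c.val : ℝ) ≤ 2 := by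
  have := c.2
  have h : c.val ≤ 2 := by omega
  exact_mod_cast h

theorem val_or (c : Fin 3) (hc : c ≠ 1) : (c.val : ℝ) = 0 ∨ (c.val : ℝ) = 2 := by
  fin_cases c
  · left; simp
  · exact absurd rfl hc
  · right; simp

theorem xp_mem {h : W n} {k l : Fin n} (hc : (act h).card = 3) (hk : h k = 1) (hl : h l ≠ 1) :
    xp h k l ∈ Pg h := by
  have h0 : (0 : ℝ) ≤ ((h l).val : ℝ) := Nat.cast_nonneg _
  have h2 := val_le (h l)
  refine ⟨?_, ?_, ?_⟩
  · intro t ht
    unfold xp
    by_cases h1 : t = k ∨ t = l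
    · rw [if_pos h1]
      rcases h1 with rfl | rfl
      · exact absurd hk ht
      · rfl
    · rw [if_neg h1, if_neg ht]
  · intro t
    unfold xp
    split_ifs
    · exact ⟨h0, h2⟩
    · rcases val_or _ hl with h3 | h3 <;> rw [h3] <;> norm_num
    · exact ⟨Nat.cast_nonneg _, val_le _⟩
  · have hkm : k ∈ act h := by
      unfold act
      exact Finset.mem_filter.2 ⟨Finset.mem_univ _, hk⟩
    rw [← Finset.add_sum_erase _ _ hkm]
    have h3 : ∀ t ∈ (act h).erase k, xp h k l t = (3 - ((h l).val : ℝ)) / 2 := by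
      intro t ht
      rw [Finset.mem_erase] at ht
      have h4 : h t = 1 := by
        have := ht.2
        unfold act at this
        exact (Finset.mem_filter.1 this).2
      have h5 : t ≠ l := by
        rintro rfl
        exact hl h4
      unfold xp
      rw [if_neg (by rintro (h6 | h6); exacts [ht.1 h6, h5 h6]), if_pos h4]
    rw [Finset.sum_congr rfl h3, Finset.sum_const, Finset.card_erase_of_mem hkm, hc]
    have h6 : xp h k l k = ((h l).val : ℝ) := by
      unfold xp
      rw [if_pos (Or.inl rfl)]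
    rw [h6]
    simp only [Nat.add_one_sub_one, nsmul_eq_mul, Nat.cast_ofNat]
    ring

theorem xp_sw {h : W n} {k l : Fin n} (hk : h k = 1) (hl : h l ≠ 1) :
    xp (sw h k l) l k = xp h k l := by
  have hkl : k ≠ l := by
    rintro rfl
    exact hl hk
  funext t
  unfold xp
  have h1 : sw h k l k = h l := by
    unfold sw
    rw [if_pos rfl]
  rw [h1]
  by_cases ht : t = k ∨ t = l
  · rw [if_pos ht, if_pos ht.symm]
  · have h2 : sw h k l t = h t := by
      unfold sw
      rw [if_neg (fun h => ht (Or.inl h)), if_neg (fun h => ht (Or.inr h))]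
    rw [if_neg ht, if_neg (fun h => ht h.symm), h2]

theorem pf_CN (h0 : T_HB) : T_CN := by
  classical
  intro n b M hM
  have hUn : Un (hfam M) = ⋃ g ∈ (M : Set (W n)), body (hf g) := by
    ext z
    simp only [Un, hfam, Set.mem_iUnion, Finset.mem_image, Finset.mem_coe, exists_prop]
    constructor
    · rintro ⟨A, ⟨g, hg, rfl⟩, hz⟩
      exact ⟨g, hg, hz⟩
    · rintro ⟨g, hg, hz⟩
      exact ⟨hf g, ⟨g, hg, rfl⟩, hz⟩
  rw [hUn]
  have hB : ∀ g ∈ M, body (hf g) = Pg g := fun g hg => h0 n g (hM.three g hg).1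
  have hint : ∀ g ∈ M, ∀ h, nb M g h → (body (hf g) ∩ body (hf h)).Nonempty := by
    rintro g hg h ⟨hh, k, l, hk, hl, rfl⟩
    rw [hB g hg, hB _ hh]
    refine ⟨xp g k l, xp_mem (hM.three g hg).1 hk hl, ?_⟩
    rw [← xp_sw hk hl]
    have hkl : k ≠ l := by
      rintro rfl
      exact hl hk
    refine xp_mem (hM.three _ hh).1 ?_ ?_
    · unfold sw
      rw [if_neg hkl.symm, if_pos rfl, hk]
    · unfold sw
      rw [if_pos rfl]
      exact hl
  have hne : ∀ g ∈ M, (body (hf g)).Nonempty := by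
    intro g hg
    have hc := (hM.three g hg).1
    have h1 : (act g).Nonempty := by
      rw [← Finset.card_pos, hc]
      norm_num
    obtain ⟨k, hk⟩ := h1
    unfold act at hk
    have hk' := (Finset.mem_filter.1 hk).2
    obtain ⟨l, ⟨hl, hl'⟩, -⟩ := hM.edge g hg k hk' 0 (by decide)
    have h2 : g l ≠ 1 := by
      rw [hl]
      decide
    exact ⟨_, (hint g hg _ ⟨hl', k, l, hk', h2, rfl⟩).some_mem.1⟩
  refine IsConnected.biUnion_of_reflTransGen ?_ ?_ ?_
  · obtain ⟨g, hg⟩ := hM.ne
    exact ⟨g, Finset.mem_coe.mpr hg⟩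
  · intro g hg
    exact ⟨hne g (Finset.mem_coe.mp hg), (convex_convexHull ℝ _).isPreconnected⟩
  · intro g hg h hh
    have hg' : g ∈ M := Finset.mem_coe.mp hg
    have hh' : h ∈ M := Finset.mem_coe.mp hh
    have key : ∀ h, Relation.ReflTransGen (nb M) g h → h ∈ M ∧
        Relation.ReflTransGen (fun i j => (body (hf i) ∩ body (hf j)).Nonempty ∧
          i ∈ (M : Set (W n))) g h := by
      intro h hgh
      induction hgh with
      | refl => exact ⟨hg', Relation.ReflTransGen.refl⟩
      | tail _ hbc ih =>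
        obtain ⟨hb, ihb⟩ := ih
        exact ⟨hbc.1, ihb.tail ⟨hint _ hb _ hbc, Finset.mem_coe.mpr hb⟩⟩
    exact (key h (hM.conn g hg' h hh')).2

end Pool.Agent.H5.RHX
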